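import Mathlib
import Pool.Agent.Y934.PairE

/-!
# Blocks of digits in the multiples of `π + e` and `π - e`

All blocks of digits occur often in the expansions of most multiples of one of the numbers `π + e`
and `π - e`; more generally, for every real number `t`, of all the numbers `t + r e`, `r` rational of
bounded height, but a few.
-/

set_option autoImplicit false

open Finset Filter

namespace Pool.Agent.Results.MP_363d4d_nt.BlocksInMostMultiples

/-- the number of places `i < n` such that the `k` digits of `z` in base `b` after the `i`-th one are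
`w 0, …, w (k - 1)` (the `j`-th digit of `z` behind the point is `⌊z b ^ j⌋ mod b`) -/
noncomputable def count (b k : ℕ) (w : Fin k → Fin b) (z : ℝ) (n : ℕ) : ℕ :=
  {i : ℕ | i < n ∧ ∀ s : Fin k, ⌊z * (b : ℝ) ^ (i + s + 1)⌋ % (b : ℤ) = ((w s : ℕ) : ℤ)}.ncard

/-- For every real `y`, for all but at most `C M ^ (1 - c)` of the `m < M`, every block of `k` digits
in base `b` occurs at least `a b ^ (-k) log_b M log_2 (n / (C log M))` times at the first `n` places
of `y + m x`. -/
def MostMultiples (b k : ℕ) (c C a : ℝ) (M n : ℕ) (x : ℝ) : Prop :=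
  ∀ y : ℝ, (({m : ℕ | m < M ∧ ¬ ∀ w : Fin k → Fin b,
    a * ((b : ℝ) ^ k)⁻¹ * Real.logb b M * Real.logb 2 (n / (C * Real.log M)) ≤
      (count b k w (y + m * x) n : ℝ)}.ncard : ℕ) : ℝ) ≤ C * (M : ℝ) ^ (1 - c)

/-- Let `b ≥ 2`, `k ≥ 1`, `H ≥ 1` and `0 < ε < 1`. There are `c, C > 0` such that the following holds.
(1) For every real number `t`, all `K ≥ 1`, `M ≥ 2` and `n`, fewer than `K` of the rational numbers
`r` with numerator and denominator at most `H` violate
`MostMultiples b k c C ((1 - ε) (1 - 1 / K)) M n (t + r e)`. (2) For all `M ≥ 2` and `n` one of the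
numbers `x = π + e` and `x = π - e` satisfies `MostMultiples b k c C ((1 - ε) / 2) M n x`. -/
theorem result (b k H : ℕ) (hb : 2 ≤ b) (hk : 1 ≤ k) (hH : 1 ≤ H) (ε : ℝ) (hε : 0 < ε)
    (hε1 : ε < 1) :
    ∃ c C : ℝ, 0 < c ∧ 0 < C ∧
      (∀ (t : ℝ) (K M n : ℕ), 1 ≤ K → 2 ≤ M → {r : ℚ | |r.num| ≤ H ∧ r.den ≤ H ∧
        ¬ MostMultiples b k c C ((1 - ε) * (1 - 1 / K)) M n (t + r * Real.exp 1)}.ncard < K) ∧
      ∀ M n : ℕ, 2 ≤ M → MostMultiples b k c C ((1 - ε) / 2) M n (Real.pi + Real.exp 1) ∨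
        MostMultiples b k c C ((1 - ε) / 2) M n (Real.pi - Real.exp 1) := by
  classical
  obtain ⟨c, C, hc, hC, h⟩ := Pool.Agent.Y934.except_e b k H hb hk ε hε hε1
  have h1 : ∀ (t : ℝ) (K M n : ℕ), 1 ≤ K → 2 ≤ M → {r : ℚ | |r.num| ≤ H ∧ r.den ≤ H ∧
        ¬ MostMultiples b k c C ((1 - ε) * (1 - 1 / K)) M n (t + r * Real.exp 1)}.ncard < K :=
    fun t K M n hK hM => h t K M n hK hM
  refine ⟨c, C, hc, hC, h1, fun M n hM => ?_⟩
  by_contra hcon
  push Not at hcon
  obtain ⟨hp, hm⟩ := hcon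
  have h2 := h1 Real.pi 2 M n (by norm_num) hM
  have hHz : (1 : ℤ) ≤ H := by exact_mod_cast hH
  have ea : (1 - ε) * (1 - 1 / ((2 : ℕ) : ℝ)) = (1 - ε) / 2 := by
    push_cast
    ring
  rw [ea] at h2
  have hfin : {r : ℚ | |r.num| ≤ H ∧ r.den ≤ H ∧
      ¬ MostMultiples b k c C ((1 - ε) / 2) M n (Real.pi + r * Real.exp 1)}.Finite :=
    (Finset.finite_toSet (Pool.Agent.Y934.rats H)).subset
      (fun r hr => Pool.Agent.Y934.mem_rats hr.1 hr.2.1)
  have h3 : ({1, -1} : Set ℚ) ⊆ {r : ℚ | |r.num| ≤ H ∧ r.den ≤ H ∧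
      ¬ MostMultiples b k c C ((1 - ε) / 2) M n (Real.pi + r * Real.exp 1)} := by
    intro r hr
    rcases hr with rfl | rfl
    · refine ⟨by simpa using hHz, by simpa using hH, ?_⟩
      have e1 : Real.pi + ((1 : ℚ) : ℝ) * Real.exp 1 = Real.pi + Real.exp 1 := by
        push_cast; ring
      rw [e1]
      exact hp
    · refine ⟨by simpa using hHz, by simpa using hH, ?_⟩
      have e1 : Real.pi + ((-1 : ℚ) : ℝ) * Real.exp 1 = Real.pi - Real.exp 1 := by
        push_cast; ring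
      rw [e1]
      exact hm
  have h4 := Set.ncard_le_ncard h3 hfin
  rw [Set.ncard_pair (by norm_num)] at h4
  omega

end Pool.Agent.Results.MP_363d4d_nt.BlocksInMostMultiples
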