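import Pool.Agent.Y39.DI.Few

/-!
# Continued fractions and algebraic approximations of `π + e` and `π - e`

At a given precision `X` a real number is called simple here if it is rational, or if it has an
algebraic approximation of degree at most `d` and height less than `X ^ c` (up to a constant
factor) with error at most `1 / X`, or if its continued fraction follows an eventually periodic
pattern, whose preperiod and period end at a denominator less than `X ^ c`, up to a denominator of
at least `X`.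

Classical argument: if `e` is algebraic over `ℚ(x_1, …, x_J)` then the `x_j` are not all algebraic.
We prove that under this assumption at every precision some `x_j` is not simple. In particular, for
an arbitrary real number `t`, for instance `t = π`, at every precision at most one of the numbers
`t + r e ^ k` (`1 ≤ k ≤ H`, `r` rational of height at most `H`) and `t e ^ l ≠ 0` (`|l| ≤ H`) is
simple; so one of `π + e` and `π - e` is not simple.

Proof: the product of the conjugates of the relation, with algebraic numbers of bounded degree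
instead of the `x_j`, is an integer polynomial of bounded degree which is small at `e`, and `e` has
a transcendence measure of polynomial type in every degree (starting library
`Pool.Agent.TH456.TM`). An eventually periodic pattern gives a quadratic integer polynomial that is
small at the number.
-/

set_option autoImplicit false

namespace Pool.Agent.Results.MP_363d4d_nt.ContinuedFractions

open Finset Polynomial
open Pool.Agent.Y39.DG Pool.Agent.Y39.DH Pool.Agent.Y39.DI

theorem family_one (θ : ℝ) (hθ : HasMeasure θ) (t : ℝ) (H d : ℕ) :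
    ∃ c C : ℝ, 0 < c ∧ 0 ≤ C ∧ ∀ X : ℝ, 1 ≤ X → ∃ x₀ : ℝ, ∀ x ∈ Family θ t H, x ≠ 0 → x ≠ x₀ →
      Rich d c C X x := by
  classical
  obtain ⟨S, hS⟩ : ∃ S : Finset ℝ, S = (family_finite θ t H).toFinset.filter fun x => x ≠ 0 :=
    ⟨_, rfl⟩
  have hSm : ∀ x, x ∈ S ↔ x ∈ Family θ t H ∧ x ≠ 0 := by
    intro x
    rw [hS, mem_filter, Set.Finite.mem_toFinset]
  obtain ⟨c, C, hc, hC, hR⟩ := few_not_rich S 1 (by
    intro T hT hT2
    obtain ⟨x, y, hxy, rfl⟩ := Finset.card_eq_two.mp hT2
    have hx := (hSm x).mp (hT (by simp))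
    have hy := (hSm y).mp (hT (by simp))
    refine ⟨θ, hθ, ?_⟩
    have := family_pair θ t (hasMeasure_ne_zero hθ) H x y hx.1 hy.1 hx.2 hy.2 hxy
    rwa [Finset.coe_pair]) d
  refine ⟨c, C, hc, hC, fun X hX => ?_⟩
  have h1 := hR X hX
  have hfin : {x ∈ (S : Set ℝ) | ¬ Rich d c C X x}.Finite :=
    (Finset.finite_toSet S).subset fun x hx => hx.1
  rw [Set.ncard_le_one_iff hfin] at h1
  by_cases hne : ∃ x₀ ∈ S, ¬ Rich d c C X x₀
  · obtain ⟨x₀, h2, h3⟩ := hne
    refine ⟨x₀, fun x hx hx0 hxx => ?_⟩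
    by_contra hcon
    exact hxx (h1 ⟨(hSm x).mpr ⟨hx, hx0⟩, hcon⟩ ⟨h2, h3⟩)
  · push Not at hne
    exact ⟨0, fun x hx hx0 _ => hne x ((hSm x).mpr ⟨hx, hx0⟩)⟩

theorem sum_and_difference (d : ℕ) : ∃ c C : ℝ, 0 < c ∧ 0 ≤ C ∧ ∀ X : ℝ, 1 ≤ X →
    Rich d c C X (Real.pi + Real.exp 1) ∨ Rich d c C X (Real.pi - Real.exp 1) := by
  obtain ⟨c, C, hc, hC, h⟩ := rich_of_algebraic ![Real.pi + Real.exp 1, Real.pi - Real.exp 1]
    (Real.exp 1) hasMeasure_e (by
      obtain ⟨A, hA⟩ : ∃ A, A = Algebra.adjoin ℤ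
        (Set.range ![Real.pi + Real.exp 1, Real.pi - Real.exp 1]) := ⟨_, rfl⟩
      have h1 : Real.pi + Real.exp 1 ∈ A := by
        rw [hA]; exact Algebra.subset_adjoin ⟨0, rfl⟩
      have h2 : Real.pi - Real.exp 1 ∈ A := by
        rw [hA]; exact Algebra.subset_adjoin ⟨1, rfl⟩
      rw [← hA]
      refine ⟨C 2 * X - C ⟨_, Subalgebra.sub_mem _ h1 h2⟩, ?_, ?_⟩
      · intro h0
        have h3 := congrArg (fun p => p.coeff 1) h0
        simp only [coeff_sub, coeff_C_mul, coeff_X, coeff_C, coeff_zero] at h3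
        norm_num at h3
      · rw [map_sub, map_mul, aeval_X, aeval_C, aeval_C]
        have e1 : (algebraMap A ℝ) 2 = 2 := map_ofNat _ 2
        have e2 : (algebraMap A ℝ) ⟨_, Subalgebra.sub_mem _ h1 h2⟩ =
          Real.pi + Real.exp 1 - (Real.pi - Real.exp 1) := rfl
        rw [e1, e2]
        ring) d
  refine ⟨c, C, hc, hC, fun X hX => ?_⟩
  obtain ⟨j, hj⟩ := h X hX
  fin_cases j
  · exact Or.inl hj
  · exact Or.inr hj

/-- **Main theorem.** `Rich d c C X x` says that at the precision `X` the number `x` is not simple: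
it is irrational; all algebraic numbers `ξ` of degree at most `d` and height `H` with
`|x - ξ| ≤ 1 / X` satisfy `log H ≥ c log X - C`; and if the first `N` partial quotients of `x`,
where `q_N ≥ X`, agree with an eventually periodic sequence of preperiod `r` and period `s`, then
`log q_(r+s) ≥ c log X - C`.

(A) Let `θ` be a real number with a transcendence measure of polynomial type in every degree, and
let `θ` be algebraic over `ℤ[x_1, …, x_J]`, `x_j` real. Then for every `d` there are `c > 0` and `C`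
such that at every precision `X ≥ 1` some `x_j` is not simple. Such `θ` are `e`, `π` and the
logarithms of positive rational numbers other than `1`.

(B) If for every subset `T` of `r + 1` elements of a finite set `S` of real numbers some such `θ`
is algebraic over `ℤ[T]`, then at every precision at most `r` elements of `S` are simple.

(C) For such `θ`, all real `t` and all `H`: at every precision all non-zero numbers `t + r θ ^ k`
(`1 ≤ k ≤ H`, `r` rational of height at most `H`) and `t θ ^ l` (`|l| ≤ H`), with at most one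
exception, are not simple.

(D) At every precision one of `π + e` and `π - e` is not simple. -/
theorem result :
    (∀ θ : ℝ, HasMeasure θ → ∀ (J : ℕ) (x : Fin J → ℝ),
      IsAlgebraic (Algebra.adjoin ℤ (Set.range x)) θ → ∀ d : ℕ,
      ∃ c C : ℝ, 0 < c ∧ 0 ≤ C ∧ ∀ X : ℝ, 1 ≤ X → ∃ j, Rich d c C X (x j)) ∧
    (HasMeasure (Real.exp 1) ∧ HasMeasure Real.pi ∧
      ∀ q : ℚ, 0 < q → q ≠ 1 → HasMeasure (Real.log q)) ∧
    (∀ (S : Finset ℝ) (r : ℕ), (∀ T ⊆ S, T.card = r + 1 →
        ∃ θ : ℝ, HasMeasure θ ∧ IsAlgebraic (Algebra.adjoin ℤ (T : Set ℝ)) θ) → ∀ d : ℕ,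
      ∃ c C : ℝ, 0 < c ∧ 0 ≤ C ∧ ∀ X : ℝ, 1 ≤ X →
        {x ∈ (S : Set ℝ) | ¬ Rich d c C X x}.ncard ≤ r) ∧
    (∀ θ : ℝ, HasMeasure θ → ∀ (t : ℝ) (H d : ℕ), ∃ c C : ℝ, 0 < c ∧ 0 ≤ C ∧
      ∀ X : ℝ, 1 ≤ X → ∃ x₀ : ℝ, ∀ x ∈ Family θ t H, x ≠ 0 → x ≠ x₀ → Rich d c C X x) ∧
    (∀ d : ℕ, ∃ c C : ℝ, 0 < c ∧ 0 ≤ C ∧ ∀ X : ℝ, 1 ≤ X →
      Rich d c C X (Real.pi + Real.exp 1) ∨ Rich d c C X (Real.pi - Real.exp 1)) :=
  ⟨fun θ hθ _ x h d => rich_of_algebraic x θ hθ h d, ⟨hasMeasure_e, hasMeasure_pi, hasMeasure_log⟩,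
    fun S r h d => few_not_rich S r h d, fun θ hθ t H d => family_one θ hθ t H d,
    sum_and_difference⟩

end Pool.Agent.Results.MP_363d4d_nt.ContinuedFractions
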