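import Mathlib
import Pool.Agent.Y928.JL.GenU
import Pool.Agent.W47.LC.EBound

/-!
# The digits of `π + e` and `π - e` satisfy no common short linear recurrence

The linear complexity `N(x; L)` of the first `L` digits of `x` in base `b` is the least order of a
linear recurrence over `ℚ` satisfied by these digits; `x` is rational if and only if it is bounded
for `L → ∞`, and it is about `L / 2` for random digits. One of `π + e`, `π - e` is irrational since
their sum is. We prove, with constants independent of the base,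
`N(π + e; L) + N(π - e; L) ≥ L / 2 - C √(L log L)`, so at every scale `L` one of the two numbers has
linear complexity at least `L / 4 - O(√(L log L))`; and the joint linear complexity (one recurrence
for both digit sequences) is at least `L / 2 - O(√(L log L))`, with errors in `k` places allowed at
least `L / (2 ^ (k + 2) - 2) - O(√(L log L))`. The same holds for `t + r e`, `t + s e` for all real
`t` and rational `r ≠ s`, uniformly in `t`.
-/

set_option autoImplicit false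

namespace Pool.Agent.Results.MP_363d4d_nt.DigitRecurrences

open Finset Polynomial

/-- the `i`-th digit of `x` after the point in base `b` -/
noncomputable def digit (b : ℕ) (x : ℝ) (i : ℕ) : ℤ := ⌊x * (b : ℝ) ^ i⌋ % (b : ℤ)

/-- The terms `s_1, …, s_L` satisfy the linear recurrence
`s_(i+m) = c_0 s_i + … + c_(m-1) s_(i+m-1)` for `1 ≤ i ≤ L - m`. -/
def Recurrence (s : ℕ → ℤ) (c : ℕ → ℚ) (L m : ℕ) : Prop :=
  ∀ i : ℕ, 1 ≤ i → i + m ≤ L → (s (i + m) : ℚ) = ∑ j ∈ range m, c j * (s (i + j) : ℚ)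

/-- the linear complexity of the first `L` digits of `x` in base `b` -/
noncomputable def complexity (b : ℕ) (x : ℝ) (L : ℕ) : ℕ :=
  sInf {m | ∃ c : ℕ → ℚ, Recurrence (digit b x) c L m}

/-- the joint `k`-error linear complexity of the first `L` digits of `x` and `y` in base `b`: the
least order of a common recurrence for the first `L` terms of two sequences of integers between `-b`
and `b` which agree with the digits of `x` and of `y` in all but at most `k` of the places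
`1, …, L` -/
noncomputable def jointComplexity (b : ℕ) (x y : ℝ) (k L : ℕ) : ℕ :=
  sInf {m | ∃ (s s' : ℕ → ℤ) (c : ℕ → ℚ), (∀ i, |s i| ≤ b) ∧ (∀ i, |s' i| ≤ b) ∧
    ((Icc 1 L).filter fun i => s i ≠ digit b x i ∨ s' i ≠ digit b y i).card ≤ k ∧
    Recurrence s c L m ∧ Recurrence s' c L m}

/-- the function `m + C √((m+1) log (m+2))` -/
noncomputable def F (C : ℝ) (m : ℕ) : ℝ :=
  m + C * Real.sqrt (((m : ℝ) + 1) * Real.log ((m : ℝ) + 2))

/-- the number of `i ≤ M` with different `i`-th and `(i+1)`-st digits, for `x` or for `y` -/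
noncomputable def changes (b : ℕ) (x y : ℝ) (M : ℕ) : ℕ :=
  ((Icc 1 M).filter fun i =>
    digit b x i ≠ digit b x (i + 1) ∨ digit b y i ≠ digit b y (i + 1)).card

/-! ### the shift operator -/

/-- the shift -/
def S : (ℕ → ℚ) →ₗ[ℚ] (ℕ → ℚ) where
  toFun a i := a (i + 1)
  map_add' _ _ := rfl
  map_smul' _ _ := rfl

lemma S_pow (a : ℕ → ℚ) (j i : ℕ) : (S ^ j) a i = a (i + j) := by
  induction j generalizing i with
  | zero => simp
  | succ j ih =>
    rw [pow_succ', Module.End.mul_apply]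
    change ((S ^ j) a) (i + 1) = _
    rw [ih]
    congr 1
    ring

lemma aeval_S (P : ℚ[X]) (a : ℕ → ℚ) (i N : ℕ) (h : P.natDegree < N) :
    (aeval S P) a i = ∑ j ∈ range N, P.coeff j * a (i + j) := by
  rw [aeval_eq_sum_range' h, LinearMap.sum_apply, Finset.sum_apply]
  refine Finset.sum_congr rfl fun j _ => ?_
  rw [LinearMap.smul_apply, Pi.smul_apply, S_pow, smul_eq_mul]

/-- the polynomial of a recurrence -/
noncomputable def poly (c : ℕ → ℚ) (m : ℕ) : ℚ[X] := X ^ m - ∑ j ∈ range m, C (c j) * X ^ j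

lemma low_degree (c : ℕ → ℚ) (m : ℕ) : (∑ j ∈ range m, C (c j) * X ^ j : ℚ[X]).degree < m := by
  refine (degree_sum_le _ _).trans_lt ?_
  rw [Finset.sup_lt_iff (by exact_mod_cast WithBot.bot_lt_coe m)]
  intro j hj
  refine (degree_C_mul_X_pow_le _ _).trans_lt ?_
  exact_mod_cast mem_range.mp hj

lemma poly_monic (c : ℕ → ℚ) (m : ℕ) : (poly c m).Monic := monic_X_pow_sub (low_degree c m)

lemma poly_natDegree (c : ℕ → ℚ) (m : ℕ) : (poly c m).natDegree = m := by
  apply natDegree_eq_of_degree_eq_some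
  unfold poly
  rw [degree_sub_eq_left_of_degree_lt, degree_X_pow]
  rw [degree_X_pow]
  exact low_degree c m

lemma poly_coeff (c : ℕ → ℚ) (m j : ℕ) (hj : j < m) : (poly c m).coeff j = - c j := by
  unfold poly
  rw [coeff_sub, coeff_X_pow, if_neg hj.ne, finsetSum_coeff, zero_sub]
  congr 1
  rw [Finset.sum_eq_single j]
  · rw [coeff_C_mul_X_pow, if_pos rfl]
  · intro l _ hl
    rw [coeff_C_mul_X_pow, if_neg hl.symm]
  · intro h
    exact absurd (mem_range.mpr hj) h

lemma poly_coeff_top (c : ℕ → ℚ) (m : ℕ) : (poly c m).coeff m = 1 := by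
  have h := poly_monic c m
  rw [Monic, leadingCoeff, poly_natDegree] at h
  exact h

/-- a recurrence in terms of the shift -/
lemma rec_iff (s : ℕ → ℤ) (c : ℕ → ℚ) (L m : ℕ) :
    Recurrence s c L m ↔
      ∀ i : ℕ, 1 ≤ i → i + m ≤ L → (aeval S (poly c m)) (fun i => (s i : ℚ)) i = 0 := by
  unfold Recurrence
  refine forall_congr' fun i => forall_congr' fun h1 => forall_congr' fun h2 => ?_
  rw [aeval_S _ _ i (m + 1) (by rw [poly_natDegree]; omega), Finset.sum_range_succ, poly_coeff_top,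
    one_mul]
  have e : ∑ j ∈ range m, (poly c m).coeff j * (s (i + j) : ℚ) =
      - ∑ j ∈ range m, c j * (s (i + j) : ℚ) := by
    rw [← Finset.sum_neg_distrib]
    refine Finset.sum_congr rfl fun j hj => ?_
    rw [poly_coeff c m j (mem_range.mp hj)]
    ring
  rw [e]
  constructor
  · intro h
    rw [h]; ring
  · intro h
    linarith

/-- if `P(S) a` vanishes on `1, …, L - m` then `Q(S) P(S) a` vanishes on `1, …, L - m - m'` -/
lemma mul_vanish (P Q : ℚ[X]) (a : ℕ → ℚ) (L m m' : ℕ) (hQ : Q.natDegree = m')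
    (h : ∀ i : ℕ, 1 ≤ i → i + m ≤ L → (aeval S P) a i = 0) :
    ∀ i : ℕ, 1 ≤ i → i + (m + m') ≤ L → (aeval S (Q * P)) a i = 0 := by
  intro i h1 h2
  rw [map_mul, Module.End.mul_apply, aeval_S _ _ i (m' + 1) (by omega)]
  refine Finset.sum_eq_zero fun j hj => ?_
  rw [mem_range] at hj
  rw [h (i + j) (by omega) (by omega), mul_zero]

/-- a common recurrence of order `m + m'` -/
theorem common (s s' : ℕ → ℤ) (c c' : ℕ → ℚ) (L m m' : ℕ) (h : Recurrence s c L m)
    (h' : Recurrence s' c' L m') :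
    ∃ d : ℕ → ℚ, Recurrence s d L (m + m') ∧ Recurrence s' d L (m + m') := by
  rw [rec_iff] at h h'
  obtain ⟨R, hR⟩ : ∃ R : ℚ[X], R = poly c' m' * poly c m := ⟨_, rfl⟩
  have hRm : R.Monic := by
    rw [hR]; exact (poly_monic _ _).mul (poly_monic _ _)
  have hRd : R.natDegree = m + m' := by
    rw [hR, (poly_monic _ _).natDegree_mul (poly_monic _ _), poly_natDegree, poly_natDegree,
      add_comm]
  have h1 := mul_vanish (poly c m) (poly c' m') _ L m m' (poly_natDegree _ _) h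
  have h2 := mul_vanish (poly c' m') (poly c m) _ L m' m (poly_natDegree _ _) h'
  rw [← hR] at h1
  rw [mul_comm, ← hR, add_comm m' m] at h2
  have key : ∀ (a : ℕ → ℤ),
      (∀ i : ℕ, 1 ≤ i → i + (m + m') ≤ L → (aeval S R) (fun i => (a i : ℚ)) i = 0) →
      Recurrence a (fun j => - R.coeff j) L (m + m') := by
    intro a ha i hi hiL
    have h3 := ha i hi hiL
    rw [aeval_S _ _ i (m + m' + 1) (by omega), Finset.sum_range_succ] at h3
    have h4 : R.coeff (m + m') = 1 := by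
      have h5 := hRm
      rw [Monic, leadingCoeff, hRd] at h5
      exact h5
    rw [h4, one_mul] at h3
    have e : ∑ j ∈ range (m + m'), - R.coeff j * (a (i + j) : ℚ) =
        - ∑ j ∈ range (m + m'), R.coeff j * (a (i + j) : ℚ) := by
      rw [← Finset.sum_neg_distrib]
      exact Finset.sum_congr rfl fun j _ => by ring
    rw [e]
    linarith
  exact ⟨fun j => - R.coeff j, key s h1, key s' h2⟩

/-! ### the measure -/

lemma dig_abs (b : ℕ) (hb : 2 ≤ b) (x : ℝ) (i : ℕ) : |digit b x i| ≤ b := by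
  unfold digit
  have hb0 : (0 : ℤ) < b := by exact_mod_cast (by omega : 0 < b)
  rw [abs_of_nonneg (Int.emod_nonneg _ hb0.ne')]
  exact (Int.emod_lt_of_pos _ hb0).le

/-- a measure for `(t + r e, t + s e)`, uniform in `t` -/
theorem meas (r s : ℚ) (hrs : r ≠ s) : ∃ c0 : ℝ, 0 < c0 ∧ ∀ (t : ℝ) (q : ℕ), 1 ≤ q →
    ∀ p : Fin 2 → ℤ, ∃ j : Fin 2,
      c0 ≤ (q : ℝ) ^ ((2 : ℝ) - 1) * (1 + Real.log q) ^ (1 : ℝ) *
        |q * (![t + r * Real.exp 1, t + s * Real.exp 1] j) - p j| := by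
  obtain ⟨δ, hδ⟩ : ∃ δ : ℚ, δ = r - s := ⟨_, rfl⟩
  have hδ0 : δ ≠ 0 := by rw [hδ]; exact sub_ne_zero.mpr hrs
  obtain ⟨u, hu⟩ : ∃ u : ℕ, u = δ.num.natAbs := ⟨_, rfl⟩
  obtain ⟨v, hv⟩ : ∃ v : ℕ, v = δ.den := ⟨_, rfl⟩
  have hu1 : 1 ≤ u := by
    rw [hu]
    exact Int.natAbs_pos.mpr (Rat.num_ne_zero.mpr hδ0)
  have hv1 : 1 ≤ v := by rw [hv]; exact δ.den_pos
  have huR : (1 : ℝ) ≤ u := by exact_mod_cast hu1
  have hvR : (1 : ℝ) ≤ v := by exact_mod_cast hv1
  have hlu : 0 ≤ Real.log u := Real.log_nonneg huR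
  refine ⟨1 / 1000 / (2 * v * u * (1 + Real.log u)), by positivity, fun t q hq p => ?_⟩
  have hqR : (1 : ℝ) ≤ q := by exact_mod_cast hq
  have hlq : 0 ≤ Real.log q := Real.log_nonneg hqR
  -- the integer
  have habs : ∃ σ : ℤ, (σ = 1 ∨ σ = -1) ∧ δ.num = σ * u := by
    rcases Int.natAbs_eq δ.num with h | h
    · exact ⟨1, Or.inl rfl, by rw [one_mul, hu]; exact h⟩
    · exact ⟨-1, Or.inr rfl, by rw [hu]; omega⟩
  obtain ⟨σ, hσ, hnum⟩ := habs
  have hδR : ((r : ℝ) - s) * v = σ * u := by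
    have h1 : δ * (δ.den : ℚ) = δ.num := Rat.mul_den_eq_num δ
    have h2 : ((δ : ℚ) : ℝ) * ((δ.den : ℕ) : ℝ) = ((δ.num : ℤ) : ℝ) := by exact_mod_cast h1
    rw [← hv, hnum, hδ] at h2
    push_cast at h2
    exact h2
  have hE := Pool.Agent.W47.LC.eBound (q * u) (Nat.mul_pos hq hu1) (σ * v * (p 0 - p 1))
  rw [pow_one] at hE
  have hdiff : (((q * u : ℕ) : ℝ) * Real.exp 1 - ((σ * v * (p 0 - p 1) : ℤ) : ℝ)) =
      σ * v * ((q * (t + r * Real.exp 1) - p 0) - (q * (t + s * Real.exp 1) - p 1)) := by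
    have hσ2 : (σ : ℝ) * σ = 1 := by
      rcases hσ with h | h <;> rw [h] <;> norm_num
    have h3 : (u : ℝ) = σ * (((r : ℝ) - s) * v) := by
      rw [hδR, ← mul_assoc, hσ2, one_mul]
    push_cast
    rw [h3]
    ring
  rw [hdiff, abs_mul, abs_mul] at hE
  have hσa : |(σ : ℝ)| = 1 := by
    rcases hσ with h | h <;> rw [h] <;> norm_num
  rw [hσa, one_mul, abs_of_nonneg (by positivity : (0 : ℝ) ≤ v)] at hE
  have hlog : 1 + Real.log ((q * u : ℕ) : ℝ) ≤ (1 + Real.log q) * (1 + Real.log u) := by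
    push_cast
    rw [Real.log_mul (by positivity) (by positivity)]
    nlinarith [mul_nonneg hlq hlu]
  have htri := abs_sub (q * (t + r * Real.exp 1) - p 0) (q * (t + s * Real.exp 1) - p 1)
  -- one of the two is large
  by_contra hcon
  push Not at hcon
  have h0 := hcon 0
  have h1 := hcon 1
  simp only [Matrix.cons_val_zero, Matrix.cons_val_one] at h0 h1
  have e1 : (q : ℝ) ^ ((2 : ℝ) - 1) = q := by norm_num
  rw [e1, Real.rpow_one] at h0 h1
  obtain ⟨a0, ha0⟩ : ∃ a0 : ℝ, a0 = |q * (t + r * Real.exp 1) - p 0| := ⟨_, rfl⟩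
  obtain ⟨a1, ha1⟩ : ∃ a1 : ℝ, a1 = |q * (t + s * Real.exp 1) - p 1| := ⟨_, rfl⟩
  rw [← ha0] at h0 htri
  rw [← ha1] at h1 htri
  have hK : 0 < 2 * (v : ℝ) * u * (1 + Real.log u) := by positivity
  rw [lt_div_iff₀ hK] at h0 h1
  have ha00 : 0 ≤ a0 := by rw [ha0]; exact abs_nonneg _
  have ha10 : 0 ≤ a1 := by rw [ha1]; exact abs_nonneg _
  have h2 : ((q * u : ℕ) : ℝ) * (1 + Real.log ((q * u : ℕ) : ℝ)) *
      (v * |(q * (t + r * Real.exp 1) - p 0) - (q * (t + s * Real.exp 1) - p 1)|) ≤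
      ((q : ℝ) * u) * ((1 + Real.log q) * (1 + Real.log u)) * (v * (a0 + a1)) := by
    have e2 : ((q * u : ℕ) : ℝ) = (q : ℝ) * u := by push_cast; ring
    rw [← e2]
    refine mul_le_mul (mul_le_mul_of_nonneg_left hlog (by positivity))
      (mul_le_mul_of_nonneg_left htri (by positivity)) (by positivity) (by positivity)
  nlinarith

/-- the main inequality -/
theorem joint (r s : ℚ) (hrs : r ≠ s) : ∃ C : ℝ, 0 < C ∧ ∀ (t : ℝ) (b : ℕ), 2 ≤ b →
    ∀ (k L m : ℕ) (a a' : ℕ → ℤ) (c : ℕ → ℚ), (∀ i, |a i| ≤ b) → (∀ i, |a' i| ≤ b) →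
    ((Icc 1 L).filter fun i => a i ≠ digit b (t + r * Real.exp 1) i ∨
      a' i ≠ digit b (t + s * Real.exp 1) i).card ≤ k →
    Recurrence a c L m → Recurrence a' c L m → (L : ℝ) ≤ (2 ^ (k + 2) - 2) * F C m := by
  obtain ⟨c0, hc0, hmeas⟩ := meas r s hrs
  obtain ⟨C, hC0, hC⟩ := Pool.Agent.Y928.JL.uniform 2 c0 1 (by norm_num) hc0 zero_le_one
  refine ⟨C, hC0, fun t b hb k L m a a' c ha ha' hE hr hr' => ?_⟩
  have h := hC 2 ![t + r * Real.exp 1, t + s * Real.exp 1] (fun q hq p => hmeas t q hq p) b hb L m k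
    ![fun i => a (i + 1), fun i => a' (i + 1)]
    (by
      intro j i _
      fin_cases j
      · exact ha _
      · exact ha' _)
    ⟨((Icc 1 L).filter fun i => a i ≠ digit b (t + r * Real.exp 1) i ∨
      a' i ≠ digit b (t + s * Real.exp 1) i).image (· - 1),
      Finset.card_image_le.trans hE, by
        intro i hi hiE
        have hnot : ¬ (a (i + 1) ≠ digit b (t + r * Real.exp 1) (i + 1) ∨
            a' (i + 1) ≠ digit b (t + s * Real.exp 1) (i + 1)) := by
          intro hne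
          apply hiE
          rw [mem_image]
          exact ⟨i + 1, by
            rw [mem_filter, mem_Icc]
            exact ⟨⟨by omega, by omega⟩, hne⟩, by omega⟩
        push Not at hnot
        intro j
        fin_cases j
        · exact hnot.1
        · exact hnot.2⟩
    ⟨c, by
      intro j i hi
      have key : ∀ a : ℕ → ℤ, Recurrence a c L m →
          (a (i + m + 1) : ℚ) = ∑ l ∈ range m, c l * (a (i + l + 1) : ℚ) := by
        intro a ha
        have h1 := ha (i + 1) (by omega) (by omega)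
        rw [show i + m + 1 = i + 1 + m by ring, h1]
        exact Finset.sum_congr rfl fun l _ => by rw [show i + l + 1 = i + 1 + l by ring]
      fin_cases j
      · exact key a hr
      · exact key a' hr'⟩
  rw [Pool.Agent.W47.JL.geom 2 (by norm_num) k] at h
  have e2 : ((2 : ℝ) ^ (k + 2) - 2) / (2 - 1) = 2 ^ (k + 2) - 2 := by norm_num
  rw [e2] at h
  exact h

/-! ### complexities -/

lemma F_mono {C : ℝ} (hC : 0 ≤ C) {m n : ℕ} (h : m ≤ n) : F C m ≤ F C n := by
  unfold F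
  have h1 : (m : ℝ) ≤ n := by exact_mod_cast h
  have hm : (0 : ℝ) ≤ m := Nat.cast_nonneg m
  have h2 : Real.log ((m : ℝ) + 2) ≤ Real.log ((n : ℝ) + 2) :=
    Real.log_le_log (by positivity) (by linarith)
  have h3 : 0 ≤ Real.log ((m : ℝ) + 2) := Real.log_nonneg (by linarith)
  have h4 : ((m : ℝ) + 1) * Real.log ((m : ℝ) + 2) ≤ ((n : ℝ) + 1) * Real.log ((n : ℝ) + 2) :=
    mul_le_mul (by linarith) h2 h3 (by linarith)
  have h5 := mul_le_mul_of_nonneg_left (Real.sqrt_le_sqrt h4) hC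
  linarith

lemma F_mono' {C C' : ℝ} (h : C ≤ C') (m : ℕ) : F C m ≤ F C' m := by
  unfold F
  have := mul_le_mul_of_nonneg_right h (Real.sqrt_nonneg (((m : ℝ) + 1) * Real.log ((m : ℝ) + 2)))
  linarith

lemma F_two {C : ℝ} (hC : 0 ≤ C) (m : ℕ) : F C (m + m) ≤ 2 * F C m := by
  unfold F
  have hm : (0 : ℝ) ≤ m := Nat.cast_nonneg m
  have hl : 0 ≤ Real.log ((m : ℝ) + 2) := Real.log_nonneg (by linarith)
  have h1 : Real.log (((m + m : ℕ) : ℝ) + 2) ≤ 2 * Real.log ((m : ℝ) + 2) := by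
    have h2 : (2 : ℝ) * Real.log ((m : ℝ) + 2) = Real.log (((m : ℝ) + 2) ^ 2) := by
      rw [Real.log_pow]; norm_num
    rw [h2]
    apply Real.log_le_log (by positivity)
    push_cast
    nlinarith
  have h3 : (((m + m : ℕ) : ℝ) + 1) * Real.log (((m + m : ℕ) : ℝ) + 2) ≤
      2 ^ 2 * (((m : ℝ) + 1) * Real.log ((m : ℝ) + 2)) := by
    have h4 : (((m + m : ℕ) : ℝ) + 1) ≤ 2 * ((m : ℝ) + 1) := by push_cast; linarith
    have h5 : 0 ≤ Real.log (((m + m : ℕ) : ℝ) + 2) :=
      Real.log_nonneg (by push_cast; linarith)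
    calc (((m + m : ℕ) : ℝ) + 1) * Real.log (((m + m : ℕ) : ℝ) + 2) ≤
        (2 * ((m : ℝ) + 1)) * (2 * Real.log ((m : ℝ) + 2)) :=
          mul_le_mul h4 h1 h5 (by positivity)
      _ = _ := by ring
  have h6 := Real.sqrt_le_sqrt h3
  have e6 : Real.sqrt (2 ^ 2 * (((m : ℝ) + 1) * Real.log ((m : ℝ) + 2))) =
      2 * Real.sqrt (((m : ℝ) + 1) * Real.log ((m : ℝ) + 2)) := by
    rw [Real.sqrt_mul (by norm_num), Real.sqrt_sq (by norm_num)]
  rw [e6] at h6
  have h7 := mul_le_mul_of_nonneg_left h6 hC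
  have h8 : ((m + m : ℕ) : ℝ) = 2 * m := by push_cast; ring
  rw [h8] at h7 ⊢
  linarith

lemma attained (b : ℕ) (x : ℝ) (L : ℕ) :
    ∃ c : ℕ → ℚ, Recurrence (digit b x) c L (complexity b x L) := by
  refine Nat.sInf_mem (s := {m | ∃ c : ℕ → ℚ, Recurrence (digit b x) c L m}) ?_
  exact ⟨L, fun _ => 0, fun i h1 h2 => by omega⟩

lemma joint_attained (b : ℕ) (hb : 2 ≤ b) (x y : ℝ) (k L : ℕ) :
    ∃ (s s' : ℕ → ℤ) (c : ℕ → ℚ), (∀ i, |s i| ≤ b) ∧ (∀ i, |s' i| ≤ b) ∧
    ((Icc 1 L).filter fun i => s i ≠ digit b x i ∨ s' i ≠ digit b y i).card ≤ k ∧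
    Recurrence s c L (jointComplexity b x y k L) ∧
      Recurrence s' c L (jointComplexity b x y k L) := by
  refine Nat.sInf_mem (s := {m | ∃ (s s' : ℕ → ℤ) (c : ℕ → ℚ), (∀ i, |s i| ≤ b) ∧
    (∀ i, |s' i| ≤ b) ∧
    ((Icc 1 L).filter fun i => s i ≠ digit b x i ∨ s' i ≠ digit b y i).card ≤ k ∧
    Recurrence s c L m ∧ Recurrence s' c L m}) ?_
  exact ⟨L, digit b x, digit b y, fun _ => 0, dig_abs b hb x, dig_abs b hb y, by simp,
    fun i h1 h2 => by omega, fun i h1 h2 => by omega⟩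

/-- the sum of the two complexities -/
theorem sum_bound (r s : ℚ) (hrs : r ≠ s) : ∃ C : ℝ, 0 < C ∧ ∀ (t : ℝ) (b : ℕ), 2 ≤ b →
    ∀ L : ℕ, (L : ℝ) ≤ 2 * F C (complexity b (t + r * Real.exp 1) L +
      complexity b (t + s * Real.exp 1) L) := by
  obtain ⟨C, hC0, hC⟩ := joint r s hrs
  refine ⟨C, hC0, fun t b hb L => ?_⟩
  obtain ⟨c, hc⟩ := attained b (t + r * Real.exp 1) L
  obtain ⟨c', hc'⟩ := attained b (t + s * Real.exp 1) L
  obtain ⟨d, hd, hd'⟩ := common _ _ c c' L _ _ hc hc'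
  have h := hC t b hb 0 L _ _ _ d (dig_abs b hb _) (dig_abs b hb _) (by simp) hd hd'
  norm_num at h
  exact_mod_cast h

/-- the rationals of height at most `H` -/
lemma finite_height (H : ℕ) : {r : ℚ | |r.num| ≤ H ∧ r.den ≤ H}.Finite := by
  refine ((Finset.Icc (-(H : ℤ)) H ×ˢ Finset.range (H + 1)).image
    (fun x : ℤ × ℕ => (x.1 : ℚ) / x.2)).finite_toSet.subset ?_
  rintro r ⟨h1, h2⟩
  rw [Finset.mem_coe, mem_image]
  refine ⟨(r.num, r.den), ?_, Rat.num_div_den r⟩
  rw [mem_product, Finset.mem_Icc, mem_range]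
  exact ⟨abs_le.mp h1, by omega⟩

/-- all but one rational of bounded height -/
theorem all_but_one (H : ℕ) : ∃ C : ℝ, 0 < C ∧ ∀ (t : ℝ) (b : ℕ), 2 ≤ b → ∀ L : ℕ,
    ∃ r0 : ℚ, ∀ r : ℚ, r ≠ r0 → |r.num| ≤ H → r.den ≤ H →
      (L : ℝ) ≤ 4 * F C (complexity b (t + r * Real.exp 1) L) := by
  classical
  choose! Cf hCf0 hCf using fun (x : ℚ × ℚ) (hx : x.1 ≠ x.2) => sum_bound x.1 x.2 hx
  obtain ⟨T, hT⟩ : ∃ T : Finset ℚ, T = (finite_height H).toFinset := ⟨_, rfl⟩
  obtain ⟨C, hC⟩ : ∃ C : ℝ, C = 1 + ∑ x ∈ T ×ˢ T, |Cf x| := ⟨_, rfl⟩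
  have hC0 : 0 < C := by
    rw [hC]
    have : 0 ≤ ∑ x ∈ T ×ˢ T, |Cf x| := Finset.sum_nonneg fun x _ => abs_nonneg _
    linarith
  refine ⟨C, hC0, fun t b hb L => ?_⟩
  by_cases hall : ∀ r : ℚ, |r.num| ≤ H → r.den ≤ H →
      (L : ℝ) ≤ 4 * F C (complexity b (t + r * Real.exp 1) L)
  · exact ⟨0, fun r _ h1 h2 => hall r h1 h2⟩
  push Not at hall
  obtain ⟨r0, h1, h2, h3⟩ := hall
  refine ⟨r0, fun r hr h4 h5 => ?_⟩
  by_contra hcon
  push Not at hcon
  have hmem : (r, r0) ∈ T ×ˢ T := by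
    rw [mem_product, hT, Set.Finite.mem_toFinset, Set.Finite.mem_toFinset]
    exact ⟨⟨h4, h5⟩, ⟨h1, h2⟩⟩
  have hle : Cf (r, r0) ≤ C := by
    have h6 := Finset.single_le_sum (f := fun x => |Cf x|) (fun x _ => abs_nonneg _) hmem
    have h7 := le_abs_self (Cf (r, r0))
    rw [hC]
    linarith
  have h8 := hCf (r, r0) hr t b hb L
  dsimp only at h8
  obtain ⟨m, hm⟩ : ∃ m, m = complexity b (t + r * Real.exp 1) L := ⟨_, rfl⟩
  obtain ⟨n, hn⟩ : ∃ n, n = complexity b (t + r0 * Real.exp 1) L := ⟨_, rfl⟩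
  rw [← hm] at hcon h8
  rw [← hn] at h3 h8
  have h9 := h8.trans (mul_le_mul_of_nonneg_left (F_mono' hle (m + n)) zero_le_two)
  rcases le_total m n with h | h
  · have h10 := F_mono hC0.le (show m + n ≤ n + n by omega)
    have h11 := F_two hC0.le n
    linarith
  · have h10 := F_mono hC0.le (show m + n ≤ m + m by omega)
    have h11 := F_two hC0.le m
    linarith

/-! ### digit changes -/

lemma F_linear (C ε : ℝ) (hC : 0 < C) (hε : 0 < ε) :
    ∃ K : ℝ, 0 ≤ K ∧ ∀ m : ℕ, F C m ≤ (1 + ε) * m + K := by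
  -- `C √(a b) ≤ (ε/2) a + C² b / (2 ε)` with `b = log (m + 2)`
  obtain ⟨δ, hδ⟩ : ∃ δ : ℝ, δ = ε ^ 2 / C ^ 2 := ⟨_, rfl⟩
  have hδ0 : 0 < δ := by rw [hδ]; positivity
  obtain ⟨K1, hK1⟩ : ∃ K1 : ℝ, K1 = |Real.log δ| := ⟨_, rfl⟩
  refine ⟨ε + 1 * ε + C ^ 2 / (2 * ε) * (|Real.log δ|), by positivity, fun m => ?_⟩
  unfold F
  have hm : (0 : ℝ) ≤ m := Nat.cast_nonneg m
  obtain ⟨a, ha⟩ : ∃ a : ℝ, a = (m : ℝ) + 1 := ⟨_, rfl⟩
  obtain ⟨l, hl⟩ : ∃ l : ℝ, l = Real.log ((m : ℝ) + 2) := ⟨_, rfl⟩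
  have hl0 : 0 ≤ l := by rw [hl]; exact Real.log_nonneg (by linarith)
  have ha0 : 0 < a := by rw [ha]; positivity
  rw [← ha, ← hl]
  have h1 : C * Real.sqrt (a * l) ≤ ε / 2 * a + C ^ 2 / (2 * ε) * l := by
    have h2 : 0 ≤ ε / 2 * a + C ^ 2 / (2 * ε) * l := by positivity
    have h3 : C * Real.sqrt (a * l) = Real.sqrt (C ^ 2 * (a * l)) := by
      have e3 : Real.sqrt (C ^ 2 * (a * l)) = C * Real.sqrt (a * l) := by
        rw [Real.sqrt_mul (by positivity), Real.sqrt_sq hC.le]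
      exact e3.symm
    rw [h3]
    apply Real.sqrt_le_iff.mpr
    refine ⟨h2, ?_⟩
    have h4 : (ε / 2 * a + C ^ 2 / (2 * ε) * l) ^ 2 - C ^ 2 * (a * l) =
        (ε / 2 * a - C ^ 2 / (2 * ε) * l) ^ 2 := by
      field_simp
      ring
    nlinarith [sq_nonneg (ε / 2 * a - C ^ 2 / (2 * ε) * l)]
  have h5 : l ≤ δ * ((m : ℝ) + 2) + |Real.log δ| := by
    have h6 : Real.log (δ * ((m : ℝ) + 2)) ≤ δ * ((m : ℝ) + 2) - 1 :=
      Real.log_le_sub_one_of_pos (by positivity)
    rw [Real.log_mul hδ0.ne' (by positivity)] at h6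
    have h7 := neg_abs_le (Real.log δ)
    rw [hl]
    linarith
  have h8 : C ^ 2 / (2 * ε) * l ≤ C ^ 2 / (2 * ε) * (δ * ((m : ℝ) + 2) + |Real.log δ|) :=
    mul_le_mul_of_nonneg_left h5 (by positivity)
  have h9 : C ^ 2 / (2 * ε) * (δ * ((m : ℝ) + 2)) = ε / 2 * ((m : ℝ) + 2) := by
    rw [hδ]
    field_simp
  rw [mul_add, h9] at h8
  rw [ha] at h1 ⊢
  nlinarith

/-- constant stretches of both digit sequences are short -/
lemma stretch (r s : ℚ) (hrs : r ≠ s) (μ : ℝ) (hμ : 2 < μ) : ∃ K : ℝ, 0 ≤ K ∧ ∀ (t : ℝ) (b : ℕ),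
    2 ≤ b → ∀ N L : ℕ,
      (∀ i, N < i → i < L → digit b (t + r * Real.exp 1) i = digit b (t + r * Real.exp 1) (i + 1) ∧
        digit b (t + s * Real.exp 1) i = digit b (t + s * Real.exp 1) (i + 1)) →
      (L : ℝ) ≤ μ * N + K := by
  obtain ⟨C, hC0, hC⟩ := joint r s hrs
  obtain ⟨K, hK0, hK⟩ := F_linear C ((μ - 2) / 2) hC0 (by linarith)
  refine ⟨μ + 2 * K, by linarith, fun t b hb N L h => ?_⟩
  have key : ∀ a : ℕ → ℤ, (∀ i, N < i → i < L → a i = a (i + 1)) →
      Recurrence a (fun j => if j = N then 1 else 0) L (N + 1) := by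
    intro a ha i h1 h2
    rw [Finset.sum_eq_single N]
    · beta_reduce
      rw [if_pos rfl, one_mul, ha (i + N) (by omega) (by omega)]
      rfl
    · intro j _ hj
      beta_reduce
      rw [if_neg hj, zero_mul]
    · intro hN
      exact absurd (mem_range.mpr (by omega)) hN
  have h1 := hC t b hb 0 L (N + 1) _ _ _ (dig_abs b hb _) (dig_abs b hb _) (by simp)
    (key _ fun i h2 h3 => (h i h2 h3).1) (key _ fun i h2 h3 => (h i h2 h3).2)
  have h2 := hK (N + 1)
  norm_num at h1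
  push_cast at h2
  have h3 : (1 + (μ - 2) / 2) = μ / 2 := by ring
  rw [h3] at h2
  linarith

/-- many digit changes -/
theorem many_changes (r s : ℚ) (hrs : r ≠ s) (μ : ℝ) (hμ : 2 < μ) : ∃ C : ℝ, ∀ (t : ℝ) (b : ℕ),
    2 ≤ b → ∀ M : ℕ, 1 ≤ M →
      Real.log M / Real.log μ - C ≤ changes b (t + r * Real.exp 1) (t + s * Real.exp 1) M := by
  classical
  obtain ⟨K, hK0, hK⟩ := stretch r s hrs μ hμ
  have hμ1 : 0 < μ - 1 := by linarith
  obtain ⟨A, hA⟩ : ∃ A : ℝ, A = (K + μ) / (μ - 1) + K + μ + 1 := ⟨_, rfl⟩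
  have hA0 : K + μ ≤ A * (μ - 1) := by
    rw [hA]
    have h1 : (K + μ) / (μ - 1) * (μ - 1) = K + μ := div_mul_cancel₀ _ hμ1.ne'
    nlinarith
  have hA1 : 1 ≤ A := by
    rw [hA]
    have : 0 ≤ (K + μ) / (μ - 1) := by apply div_nonneg <;> linarith
    linarith
  have hA2 : K ≤ A := by
    rw [hA]
    have : 0 ≤ (K + μ) / (μ - 1) := by apply div_nonneg <;> linarith
    linarith
  have hmain : ∀ (t : ℝ) (b : ℕ), 2 ≤ b → ∀ M : ℕ,
      (M : ℝ) + A ≤ (2 * A) * μ ^ (changes b (t + r * Real.exp 1) (t + s * Real.exp 1) M) := by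
    intro t b hb M
    induction M using Nat.strong_induction_on with
    | _ M ih =>
      obtain ⟨D, hD⟩ : ∃ D : ℕ → Prop, D = fun i =>
        digit b (t + r * Real.exp 1) i ≠ digit b (t + r * Real.exp 1) (i + 1) ∨
        digit b (t + s * Real.exp 1) i ≠ digit b (t + s * Real.exp 1) (i + 1) := ⟨_, rfl⟩
      have hch : ∀ M, changes b (t + r * Real.exp 1) (t + s * Real.exp 1) M =
          ((Icc 1 M).filter fun i => D i).card := by
        intro M
        unfold changes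
        subst hD
        congr!
      by_cases hex : ∃ i, 1 ≤ i ∧ i ≤ M ∧ D i
      · -- the largest change
        have hne : ((Icc 1 M).filter fun i => D i).Nonempty := by
          obtain ⟨i, h1, h2, h3⟩ := hex
          exact ⟨i, by rw [mem_filter, mem_Icc]; exact ⟨⟨h1, h2⟩, h3⟩⟩
        obtain ⟨N, hNdef⟩ : ∃ N, N = ((Icc 1 M).filter fun i => D i).max' hne := ⟨_, rfl⟩
        have hNmem := Finset.max'_mem _ hne
        rw [← hNdef, mem_filter, mem_Icc] at hNmem
        obtain ⟨⟨hN1, hNM⟩, hND⟩ := hNmem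
        have hmax : ∀ i, N < i → i ≤ M → ¬ D i := by
          intro i h1 h2 h3
          have h4 := Finset.le_max' ((Icc 1 M).filter fun i => D i) i (by
            rw [mem_filter, mem_Icc]; exact ⟨⟨by omega, h2⟩, h3⟩)
          omega
        have hlen := hK t b hb N M (by
          intro i h1 h2
          have h3 := hmax i h1 h2.le
          rw [hD] at h3
          push Not at h3
          exact h3)
        have hih := ih (N - 1) (by omega)
        have hcard : changes b (t + r * Real.exp 1) (t + s * Real.exp 1) (N - 1) + 1 ≤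
            changes b (t + r * Real.exp 1) (t + s * Real.exp 1) M := by
          rw [hch, hch]
          have hsub : insert N ((Icc 1 (N - 1)).filter fun i => D i) ⊆
              (Icc 1 M).filter fun i => D i := by
            intro i hi
            rw [mem_insert, mem_filter, mem_Icc] at hi
            rw [mem_filter, mem_Icc]
            rcases hi with h | ⟨⟨h1, h2⟩, h3⟩
            · rw [h]; exact ⟨⟨hN1, hNM⟩, hND⟩
            · exact ⟨⟨h1, by omega⟩, h3⟩
          have h5 := Finset.card_le_card hsub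
          rw [Finset.card_insert_of_notMem (by
            intro h
            rw [mem_filter, mem_Icc] at h
            omega)] at h5
          exact h5
        have hμ0 : 1 ≤ μ := by linarith
        have hpow : μ ^ (changes b (t + r * Real.exp 1) (t + s * Real.exp 1) (N - 1) + 1) ≤
            μ ^ (changes b (t + r * Real.exp 1) (t + s * Real.exp 1) M) :=
          pow_le_pow_right₀ hμ0 hcard
        rw [pow_succ] at hpow
        have hN1R : ((N - 1 : ℕ) : ℝ) = N - 1 := by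
          rw [Nat.cast_sub hN1]; push_cast; ring
        rw [hN1R] at hih
        have h6 : (M : ℝ) + A ≤ μ * ((N : ℝ) - 1 + A) := by nlinarith
        have h7 : μ * ((N : ℝ) - 1 + A) ≤
            μ * (2 * A * μ ^ (changes b (t + r * Real.exp 1) (t + s * Real.exp 1) (N - 1))) :=
          mul_le_mul_of_nonneg_left hih (by linarith)
        have h8 := mul_le_mul_of_nonneg_left hpow (by linarith : 0 ≤ 2 * A)
        nlinarith
      · push Not at hex
        have hlen := hK t b hb 0 M (by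
          intro i h1 h2
          have h3 := hex i (by omega) h2.le
          rw [hD] at h3
          push Not at h3
          exact h3)
        rw [Nat.cast_zero, mul_zero, zero_add] at hlen
        have h1 : (1 : ℝ) ≤ μ ^ (changes b (t + r * Real.exp 1) (t + s * Real.exp 1) M) :=
          one_le_pow₀ (by linarith)
        have h2 := mul_le_mul_of_nonneg_left h1 (by linarith : 0 ≤ 2 * A)
        linarith
  have hlμ : 0 < Real.log μ := Real.log_pos (by linarith)
  refine ⟨Real.log (2 * A) / Real.log μ, fun t b hb M hM => ?_⟩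
  have hMR : (1 : ℝ) ≤ M := by exact_mod_cast hM
  have h1 := hmain t b hb M
  have h2 : (M : ℝ) ≤ (2 * A) * μ ^ (changes b (t + r * Real.exp 1) (t + s * Real.exp 1) M) := by
    linarith
  have h3 := Real.log_le_log (by linarith) h2
  rw [Real.log_mul (by linarith) (by positivity), Real.log_pow] at h3
  rw [← sub_div, div_le_iff₀ hlμ]
  linarith

/-- **Main theorem.** Let `F C m = m + C √((m + 1) log (m + 2))`.

(1) For rational `r ≠ s` there is `C` such that for every real number `t`, all bases `b ≥ 2` and all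
`k`, `L` the joint `k`-error linear complexity `m` of the first `L` digits of `t + r e` and
`t + s e` satisfies `L ≤ (2 ^ (k + 2) - 2) F C m`.

(2) For every `H` there is `C` such that for all real `t`, all bases `b` and all `L` the linear
complexity `m` of the first `L` digits of `t + r e` satisfies `L ≤ 4 F C m` for all rational `r` of
height at most `H` with at most one exception.

(3) There is `C` such that `L ≤ 2 F C (N(π + e) + N(π - e))` for the linear complexities `N` of the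
first `L` digits, in all bases and for all `L`; and for all `k`, `L` the joint `k`-error linear
complexity `m` of `π + e` and `π - e` satisfies `L ≤ (2 ^ (k + 2) - 2) F C m`.

(4) For every `μ > 2` there is `C` such that in all bases and for all `M ≥ 1` there are at least
`log M / log μ - C` indices `i ≤ M` such that the digits number `i` and `i + 1` of `π + e` or those
of `π - e` are different. -/
theorem result :
    (∀ r s : ℚ, r ≠ s → ∃ C : ℝ, ∀ (t : ℝ) (b : ℕ), 2 ≤ b → ∀ k L : ℕ,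
      (L : ℝ) ≤ (2 ^ (k + 2) - 2) *
        F C (jointComplexity b (t + r * Real.exp 1) (t + s * Real.exp 1) k L)) ∧
    (∀ H : ℕ, ∃ C : ℝ, ∀ (t : ℝ) (b : ℕ), 2 ≤ b → ∀ L : ℕ, ∃ r0 : ℚ, ∀ r : ℚ, r ≠ r0 →
      |r.num| ≤ H → r.den ≤ H → (L : ℝ) ≤ 4 * F C (complexity b (t + r * Real.exp 1) L)) ∧
    (∃ C : ℝ, ∀ b : ℕ, 2 ≤ b → ∀ L : ℕ,
      (L : ℝ) ≤ 2 * F C (complexity b (Real.pi + Real.exp 1) L +
        complexity b (Real.pi - Real.exp 1) L) ∧
      ∀ k : ℕ, (L : ℝ) ≤ (2 ^ (k + 2) - 2) *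
        F C (jointComplexity b (Real.pi + Real.exp 1) (Real.pi - Real.exp 1) k L)) ∧
    (∀ μ : ℝ, 2 < μ → ∃ C : ℝ, ∀ b : ℕ, 2 ≤ b → ∀ M : ℕ, 1 ≤ M →
      Real.log M / Real.log μ - C ≤
        changes b (Real.pi + Real.exp 1) (Real.pi - Real.exp 1) M) := by
  have e1 : Real.pi + ((1 : ℚ) : ℝ) * Real.exp 1 = Real.pi + Real.exp 1 := by push_cast; ring
  have e2 : Real.pi + ((-1 : ℚ) : ℝ) * Real.exp 1 = Real.pi - Real.exp 1 := by push_cast; ring
  have hJ : ∀ r s : ℚ, r ≠ s → ∃ C : ℝ, 0 < C ∧ ∀ (t : ℝ) (b : ℕ), 2 ≤ b → ∀ k L : ℕ,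
      (L : ℝ) ≤ (2 ^ (k + 2) - 2) *
        F C (jointComplexity b (t + r * Real.exp 1) (t + s * Real.exp 1) k L) := by
    intro r s hrs
    obtain ⟨C, hC0, hC⟩ := joint r s hrs
    refine ⟨C, hC0, fun t b hb k L => ?_⟩
    obtain ⟨a, a', c, h1, h2, h3, h4, h5⟩ :=
      joint_attained b hb (t + r * Real.exp 1) (t + s * Real.exp 1) k L
    exact hC t b hb k L _ a a' c h1 h2 h3 h4 h5
  refine ⟨fun r s hrs => ?_, fun H => ?_, ?_, fun μ hμ => ?_⟩
  · obtain ⟨C, _, hC⟩ := hJ r s hrs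
    exact ⟨C, hC⟩
  · obtain ⟨C, _, hC⟩ := all_but_one H
    exact ⟨C, hC⟩
  · obtain ⟨C, hC0, hC⟩ := sum_bound 1 (-1) (by norm_num)
    obtain ⟨C', hC0', hC'⟩ := hJ 1 (-1) (by norm_num)
    refine ⟨max C C', fun b hb L => ⟨?_, fun k => ?_⟩⟩
    · have h := hC Real.pi b hb L
      rw [e1, e2] at h
      exact h.trans (mul_le_mul_of_nonneg_left (F_mono' (le_max_left _ _) _) zero_le_two)
    · have h := hC' Real.pi b hb k L
      rw [e1, e2] at h
      refine h.trans (mul_le_mul_of_nonneg_left (F_mono' (le_max_right _ _) _) ?_)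
      have : (2 : ℝ) ^ 1 ≤ 2 ^ (k + 2) := pow_le_pow_right₀ (by norm_num) (by omega)
      linarith
  · obtain ⟨C, hC⟩ := many_changes 1 (-1) (by norm_num) μ hμ
    refine ⟨C, fun b hb M hM => ?_⟩
    have h := hC Real.pi b hb M hM
    rw [e1, e2] at h
    exact h

end Pool.Agent.Results.MP_363d4d_nt.DigitRecurrences
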