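import Mathlib
import Pool.Agent.TH796.Fin.Fin8

set_option autoImplicit false

/-!
# The digits of `π + e` and `π - e` in two independent bases

Let `S` be an infinite set of integers. For a set `A` of bases let `K_A` be the field generated by
all real numbers with `O(n)` different blocks of `n` digits, `n ∈ S`, in some base of `A`.

(1) If `A` and `B` generate subgroups of the multiplicative group of `ℚ` with trivial intersection,
then, for `K = K_A` or for `K = K_B`, of any two real numbers `x π + y e + z`, `x' π + y' e + z'`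
with coefficients algebraic over `K` and with `x y' ≠ x' y` one is transcendental over `K`. In
particular this holds for `π + e` and `π - e`.

(2) If `b` and `c` are multiplicatively independent, then the largest one of the four numbers of
different blocks of `n` digits of `π + e` and of `π - e` in the bases `b` and `c`, divided by `n`,
tends to infinity. The same holds for the numbers of blocks of two forms `x π + y e + z`,
`x' π + y' e + z'` in the base `b` and of two forms in the base `c`, with real algebraic coefficients.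

(3) For every `S` all the bases `b`, apart from the bases multiplicatively dependent on one base `c`,
have the property of (1), for the field generated by the real numbers with `O(n)` different blocks
of `n` digits, `n ∈ S`, in some base multiplicatively dependent on `b`.
-/

namespace Pool.Agent.Results.MP_363d4d_nt.DigitsInTwoBases

open Filter

/-- the digit of index `n + 1` after the point in the base `b` expansion of `x` -/
noncomputable def digit (b : ℕ) (x : ℝ) (n : ℕ) : ℤ := ⌊x * (b : ℝ) ^ (n + 1)⌋ % (b : ℤ)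

/-- the number of different blocks of `n` consecutive digits (after the point) of `x` in base `b` -/
noncomputable def blocks (b : ℕ) (x : ℝ) (n : ℕ) : ℕ :=
  (Set.range fun i => fun j : Fin n => digit b x (i + j)).ncard

/-- the field generated by all real numbers which in some base `b ∈ A` have at most `C n` different
blocks of `n` digits for all `n ∈ S`; `b` and `C` may depend on the number. It contains `ℚ`. -/
noncomputable def lowField (S A : Set ℕ) : Subfield ℝ :=
  Subfield.closure {x | ∃ b ∈ A, ∃ C : ℝ, ∀ n ∈ S, (blocks b x n : ℝ) ≤ C * n}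

/-- the subgroup of the multiplicative group of `ℚ` generated by `A` -/
def group (A : Set ℕ) : Subgroup ℚˣ := Subgroup.closure {u | ∃ b ∈ A, ((u : ℚˣ) : ℚ) = b}

/-- multiplicatively independent bases -/
def Independent (b c : ℕ) : Prop := ∀ k l : ℕ, b ^ k = c ^ l → k = 0 ∧ l = 0

/-- `x π + y e + z` -/
noncomputable def form (x y z : ℝ) : ℝ := x * Real.pi + y * Real.exp 1 + z

/-- Of two forms `x π + y e + z`, `x' π + y' e + z'` with coefficients algebraic over `K` and
with `x y' ≠ x' y` one is transcendental over `K`. -/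
def OneOfTwo (K : Subfield ℝ) : Prop :=
  ∀ x y z x' y' z' : ℝ, IsAlgebraic K x → IsAlgebraic K y → IsAlgebraic K z → IsAlgebraic K x' →
    IsAlgebraic K y' → IsAlgebraic K z' → x * y' ≠ x' * y →
    Transcendental K (form x y z) ∨ Transcendental K (form x' y' z')

/-- both forms have coefficients algebraic over `ℚ` and `x y' ≠ x' y` -/
def Pair (u v : ℝ) : Prop :=
  ∃ x y z x' y' z' : ℝ, IsAlgebraic ℚ x ∧ IsAlgebraic ℚ y ∧ IsAlgebraic ℚ z ∧ IsAlgebraic ℚ x' ∧
    IsAlgebraic ℚ y' ∧ IsAlgebraic ℚ z' ∧ x * y' ≠ x' * y ∧ u = form x y z ∧ v = form x' y' z'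

theorem oneOfTwo_of {K : Subfield ℝ} (h : Transcendental K (Real.exp 1)) : OneOfTwo K := by
  intro x y z x' y' z' hx hy hz hx' hy' hz' hne
  by_contra hcon
  unfold Transcendental at hcon
  push Not at hcon
  obtain ⟨h1, h2⟩ := hcon
  apply h
  have hd : x * y' - x' * y ≠ 0 := sub_ne_zero.2 hne
  have h3 : IsAlgebraic K (x * form x' y' z' - x' * form x y z - (x * z' - x' * z)) :=
    ((hx.mul h2).sub (hx'.mul h1)).sub ((hx.mul hz').sub (hx'.mul hz))
  have h4 : IsAlgebraic K (x * y' - x' * y) := (hx.mul hy').sub (hx'.mul hy)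
  have e : Real.exp 1 = (x * form x' y' z' - x' * form x y z - (x * z' - x' * z)) *
      (x * y' - x' * y)⁻¹ := by
    rw [eq_mul_inv_iff_mul_eq₀ hd]
    unfold form
    ring
  rw [e]
  exact h3.mul h4.inv

theorem pair_pi_e : Pair (Real.pi + Real.exp 1) (Real.pi - Real.exp 1) := by
  refine ⟨1, 1, 0, 1, -1, 0, isAlgebraic_one, isAlgebraic_one, isAlgebraic_zero, isAlgebraic_one,
    isAlgebraic_one.neg, isAlgebraic_zero, by norm_num, ?_, ?_⟩
  · unfold form; ring
  · unfold form; ring

theorem alg_of_rat {K : Subfield ℝ} {x : ℝ} (h : IsAlgebraic ℚ x) : IsAlgebraic K x :=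
  h.extendScalars (R := ℚ) (S := K) (algebraMap ℚ K).injective

theorem OneOfTwo.pair {K : Subfield ℝ} (h : OneOfTwo K) {u v : ℝ} (huv : Pair u v) :
    Transcendental K u ∨ Transcendental K v := by
  obtain ⟨x, y, z, x', y', z', hx, hy, hz, hx', hy', hz', hne, rfl, rfl⟩ := huv
  exact h x y z x' y' z' (alg_of_rat hx) (alg_of_rat hy) (alg_of_rat hz) (alg_of_rat hx')
    (alg_of_rat hy') (alg_of_rat hz') hne

theorem mem_lowField {S A : Set ℕ} {b : ℕ} (hb : b ∈ A) {x : ℝ} {C : ℝ}
    (h : ∀ n ∈ S, (blocks b x n : ℝ) ≤ C * n) : x ∈ lowField S A :=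
  Subfield.subset_closure ⟨b, hb, C, h⟩

theorem not_transc {K : Subfield ℝ} {x : ℝ} (h : x ∈ K) : ¬ Transcendental K x := by
  intro h1
  exact h1 (isAlgebraic_algebraMap (⟨x, h⟩ : K))

/-- **The digits of `π + e` and `π - e`.** See the text at the beginning of the file. -/
theorem result :
    (∀ S : Set ℕ, S.Infinite → ∀ A B : Set ℕ, (∀ b ∈ A, 2 ≤ b) → (∀ b ∈ B, 2 ≤ b) →
      group A ⊓ group B = ⊥ → OneOfTwo (lowField S A) ∨ OneOfTwo (lowField S B)) ∧
    (∀ b c : ℕ, 2 ≤ b → 2 ≤ c → Independent b c →
      Tendsto (fun n : ℕ => ((max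
        (max (blocks b (Real.pi + Real.exp 1) n) (blocks b (Real.pi - Real.exp 1) n))
        (max (blocks c (Real.pi + Real.exp 1) n) (blocks c (Real.pi - Real.exp 1) n)) : ℕ) : ℝ) / n)
        atTop atTop ∧
      ∀ u v u' v' : ℝ, Pair u v → Pair u' v' →
        Tendsto (fun n : ℕ => ((max (max (blocks b u n) (blocks b v n))
          (max (blocks c u' n) (blocks c v' n)) : ℕ) : ℝ) / n) atTop atTop) ∧
    (∀ S : Set ℕ, S.Infinite → ∃ c : ℕ, 2 ≤ c ∧ ∀ b : ℕ, 2 ≤ b → Independent b c →
      OneOfTwo (lowField S {d | 2 ≤ d ∧ ¬ Independent d b})) := by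
  have hm : Pool.Agent.TH456.TM.MeasT ((Real.exp 1 : ℝ) : ℂ) :=
    Pool.Agent.TH796.AL.Ai.measT_of (Or.inl rfl)
  have ht : Transcendental ℚ (Real.exp 1) := Pool.Agent.TH796.AL.Alg.transc_of_measT hm
  have hU : ¬ Pool.Agent.TH796.AL.Ai.UNumber (Real.exp 1) :=
    Pool.Agent.TH796.AL.Ai.not_unumber hm
  have h1 : ∀ S : Set ℕ, S.Infinite → ∀ A B : Set ℕ, (∀ b ∈ A, 2 ≤ b) → (∀ b ∈ B, 2 ≤ b) →
      group A ⊓ group B = ⊥ → OneOfTwo (lowField S A) ∨ OneOfTwo (lowField S B) := by
    intro S hS A B hA hB hAB
    rcases Pool.Agent.TH796.AL.Alg.free_pair ht hU hA hB hAB hS with h | h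
    · exact Or.inl (oneOfTwo_of h.1)
    · exact Or.inr (oneOfTwo_of h.1)
  have h2 : ∀ b c : ℕ, 2 ≤ b → 2 ≤ c → Independent b c → ∀ u v u' v' : ℝ, Pair u v → Pair u' v' →
        Tendsto (fun n : ℕ => ((max (max (blocks b u n) (blocks b v n))
          (max (blocks c u' n) (blocks c v' n)) : ℕ) : ℝ) / n) atTop atTop := by
    intro b c hb hc hbc u v u' v' huv huv'
    by_contra hcon
    rw [tendsto_atTop] at hcon
    push Not at hcon
    obtain ⟨C, hC⟩ := hcon
    set S : Set ℕ := {n : ℕ | 1 ≤ n ∧ ((max (max (blocks b u n) (blocks b v n))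
          (max (blocks c u' n) (blocks c v' n)) : ℕ) : ℝ) / n < C} with hSdef
    have hS : S.Infinite := by
      rw [← Nat.frequently_atTop_iff_infinite]
      exact (hC.and_eventually (eventually_ge_atTop 1)).mono fun n hn => ⟨hn.2, hn.1⟩
    have hle : ∀ n ∈ S, ((max (max (blocks b u n) (blocks b v n))
          (max (blocks c u' n) (blocks c v' n)) : ℕ) : ℝ) ≤ C * n := by
      rintro n ⟨hn1, hn2⟩
      have hn0 : (0:ℝ) < n := by exact_mod_cast hn1
      exact ((div_lt_iff₀ hn0).1 hn2).le
    have ha : ∀ n ∈ S, (blocks b u n : ℝ) ≤ C * n := fun n hn =>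
      le_trans (by exact_mod_cast (le_max_left _ _).trans (le_max_left _ _)) (hle n hn)
    have hb' : ∀ n ∈ S, (blocks b v n : ℝ) ≤ C * n := fun n hn =>
      le_trans (by exact_mod_cast (le_max_right _ _).trans (le_max_left _ _)) (hle n hn)
    have hc' : ∀ n ∈ S, (blocks c u' n : ℝ) ≤ C * n := fun n hn =>
      le_trans (by exact_mod_cast (le_max_left _ _).trans (le_max_right _ _)) (hle n hn)
    have hd : ∀ n ∈ S, (blocks c v' n : ℝ) ≤ C * n := fun n hn =>
      le_trans (by exact_mod_cast (le_max_right _ _).trans (le_max_right _ _)) (hle n hn)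
    rcases h1 S hS {b} {c} (by simpa using hb) (by simpa using hc)
      (Pool.Agent.TH796.AL.Ai.group_inf hb hc hbc) with h | h
    · rcases h.pair huv with h3 | h3
      · exact not_transc (mem_lowField (Set.mem_singleton b) ha) h3
      · exact not_transc (mem_lowField (Set.mem_singleton b) hb') h3
    · rcases h.pair huv' with h3 | h3
      · exact not_transc (mem_lowField (Set.mem_singleton c) hc') h3
      · exact not_transc (mem_lowField (Set.mem_singleton c) hd) h3
  refine ⟨h1, fun b c hb hc hbc => ⟨h2 b c hb hc hbc _ _ _ _ pair_pi_e pair_pi_e,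
    h2 b c hb hc hbc⟩, fun S hS => ?_⟩
  obtain ⟨c, hc, h⟩ := Pool.Agent.TH796.Fin.free_cls ht hU hS
  exact ⟨c, hc, fun b hb hbc => oneOfTwo_of (h b hb hbc).1⟩

end Pool.Agent.Results.MP_363d4d_nt.DigitsInTwoBases
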